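import Mathlib

set_option autoImplicit false

/-!
# Summability of the Dedekind zeta series over ideals
-/

namespace Pool.Agent.helper2.Tow

open NumberField Filter Topology Ideal

variable (F : Type*) [Field F] [NumberField F]

/-- number of ideals of norm `n` -/
noncomputable def cN (n : ℕ) : ℝ := Nat.card {I : Ideal (𝓞 F) // absNorm I = n}

lemma sum_cN (n : ℕ) : ∑ k ∈ Finset.Icc 1 n, cN F k ≤
    (Nat.card {I : Ideal (𝓞 F) // absNorm I ≤ n} : ℝ) := by
  classical
  have hfin : ∀ m : ℕ, Finite {I : Ideal (𝓞 F) // absNorm I = m} := fun m =>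
    Set.Finite.to_subtype (finite_setOfPred_absNorm_eq m)
  have hfin2 : Finite {I : Ideal (𝓞 F) // absNorm I ≤ n} :=
    Set.Finite.to_subtype (finite_setOfPred_absNorm_le n)
  have e1 : ∑ k ∈ Finset.Icc 1 n, cN F k =
      (Nat.card (Σ k : Finset.Icc 1 n, {I : Ideal (𝓞 F) // absNorm I = k.1}) : ℝ) := by
    rw [Nat.card_sigma, Nat.cast_sum, ← Finset.sum_coe_sort]
    rfl
  rw [e1]
  norm_cast
  refine Nat.card_le_card_of_injective
    (fun p : (Σ k : Finset.Icc 1 n, {I : Ideal (𝓞 F) // absNorm I = k.1}) =>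
      (⟨p.2.1, p.2.2.le.trans (Finset.mem_Icc.1 p.1.2).2⟩ : {I : Ideal (𝓞 F) // absNorm I ≤ n})) ?_
  rintro ⟨⟨k, hk⟩, I, hI⟩ ⟨⟨l, hl⟩, J, hJ⟩ h
  have h' : I = J := congrArg Subtype.val h
  subst h'
  simp only at hI hJ
  subst hI
  subst hJ
  rfl

lemma LSeriesSummable_cN {σ : ℝ} (hσ : 1 < σ) : LSeriesSummable (fun n => (cN F n : ℂ)) σ := by
  refine LSeriesSummable_of_sum_norm_bigO_and_nonneg (r := 1) ?_ (fun n => Nat.cast_nonneg _)
    zero_le_one (by simpa using hσ)
  have h := ((Ideal.tendsto_norm_le_div_atTop F).comp tendsto_natCast_atTop_atTop)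
  have h2 : (fun n : ℕ => (Nat.card {I : Ideal (𝓞 F) // (absNorm I : ℝ) ≤ n} : ℝ) / n) =O[atTop]
      fun _ => (1 : ℝ) := h.isBigO_one ℝ
  have h3 := h2.mul (Asymptotics.isBigO_refl (fun n : ℕ => (n : ℝ)) atTop)
  refine (Asymptotics.IsBigO.trans ?_ h3).trans ?_
  · refine Asymptotics.IsBigO.of_bound 1 ?_
    filter_upwards [eventually_gt_atTop 0] with n hn
    have hn' : (n : ℝ) ≠ 0 := by positivity
    have h0 : 0 ≤ ∑ k ∈ Finset.Icc 1 n, cN F k := Finset.sum_nonneg fun _ _ => Nat.cast_nonneg _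
    rw [div_mul_cancel₀ _ hn', one_mul, Real.norm_of_nonneg h0,
      Real.norm_of_nonneg (Nat.cast_nonneg _)]
    refine (sum_cN F n).trans (le_of_eq ?_)
    simp_rw [Nat.cast_le]
  · refine Asymptotics.IsBigO.of_bound 1 ?_
    filter_upwards with n
    rw [one_mul, Real.rpow_one, one_mul]

theorem summable_absNorm {σ : ℝ} (hσ : 1 < σ) :
    Summable fun I : Ideal (𝓞 F) => (absNorm I : ℝ) ^ (-σ) := by
  have h := (LSeriesSummable_cN F hσ).norm
  rw [← (Equiv.sigmaFiberEquiv (fun I : Ideal (𝓞 F) => absNorm I)).summable_iff]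
  have hfin : ∀ m : ℕ, Finite {I : Ideal (𝓞 F) // absNorm I = m} := fun m =>
    Set.Finite.to_subtype (finite_setOfPred_absNorm_eq m)
  rw [summable_sigma_of_nonneg]
  · refine ⟨fun n => ?_, ?_⟩
    · have := hfin n
      haveI := Fintype.ofFinite {I : Ideal (𝓞 F) // absNorm I = n}
      exact (hasSum_fintype _).summable
    · refine h.congr fun n => ?_
      have e : ∀ I : {I : Ideal (𝓞 F) // absNorm I = n},
          ((fun I : Ideal (𝓞 F) => (absNorm I : ℝ) ^ (-σ)) ∘
            (Equiv.sigmaFiberEquiv (fun I : Ideal (𝓞 F) => absNorm I))) ⟨n, I⟩ =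
          (n : ℝ) ^ (-σ) := by
        intro I
        simp only [Function.comp_apply, Equiv.sigmaFiberEquiv_apply]
        rw [I.2]
      simp_rw [e]
      rw [tsum_const]
      rcases eq_or_ne n 0 with rfl | hn
      · rw [LSeries.term_zero, norm_zero, Nat.cast_zero, Real.zero_rpow (by linarith), smul_zero]
      · rw [LSeries.term_of_ne_zero hn, norm_div, Complex.norm_real, cN,
          Complex.norm_natCast_cpow_of_pos (Nat.pos_of_ne_zero hn), Complex.ofReal_re,
          Real.norm_of_nonneg (Nat.cast_nonneg _), nsmul_eq_mul, Real.rpow_neg (Nat.cast_nonneg _),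
          div_eq_mul_inv]
  · intro p
    exact Real.rpow_nonneg (Nat.cast_nonneg _) _

end Pool.Agent.helper2.Tow
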