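import Mathlib

set_option autoImplicit false

/-!
# Euler products of completely multiplicative functions on the ideals of a Dedekind domain
-/

namespace Pool.Agent.helper2.Tow

open IsDedekindDomain UniqueFactorizationMonoid Filter Topology

variable {A : Type*} [CommRing A] [IsDedekindDomain A]

/-- the ideals with all prime divisors in a set -/
def Sm (S : Finset (HeightOneSpectrum A)) : Set (Ideal A) :=
  {I | I ≠ ⊥ ∧ ∀ v : HeightOneSpectrum A, I ≤ v.asIdeal → v ∈ S}

omit [IsDedekindDomain A] in
lemma mem_Sm {S : Finset (HeightOneSpectrum A)} {I : Ideal A} :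
    I ∈ Sm S ↔ I ≠ ⊥ ∧ ∀ v : HeightOneSpectrum A, I ≤ v.asIdeal → v ∈ S := Iff.rfl

lemma Sm_empty : Sm (∅ : Finset (HeightOneSpectrum A)) = {1} := by
  ext I
  rw [mem_Sm, Set.mem_singleton_iff]
  constructor
  · rintro ⟨h0, h⟩
    by_contra h1
    obtain ⟨P, hP, hI⟩ := Ideal.exists_le_maximal I (fun h => h1 (h.trans Ideal.one_eq_top.symm))
    have hP0 : P ≠ ⊥ := fun hb => h0 (le_bot_iff.1 (hb ▸ hI))
    exact absurd (h ⟨P, hP.isPrime, hP0⟩ hI) (Finset.notMem_empty _)
  · rintro rfl
    refine ⟨one_ne_zero, fun v hv => ?_⟩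
    exact absurd (top_le_iff.1 (Ideal.one_eq_top (R := A) ▸ hv)) v.isPrime.ne_top

lemma exists_Sm [DecidableEq (HeightOneSpectrum A)] {I : Ideal A} (hI : I ≠ ⊥) :
    ∃ S : Finset (HeightOneSpectrum A), I ∈ Sm S := by
  have h := Ideal.finite_factors hI
  refine ⟨h.toFinset, hI, fun v hv => ?_⟩
  rw [Set.Finite.mem_toFinset]
  exact Ideal.dvd_iff_le.2 hv

omit [IsDedekindDomain A] in
lemma Sm_mono {S T : Finset (HeightOneSpectrum A)} (h : S ⊆ T) : Sm S ⊆ Sm (A := A) T :=
  fun _ hI => ⟨hI.1, fun v hv => h (hI.2 v hv)⟩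

variable (f : Ideal A → ℂ)

open Classical in
/-- the sum over the ideals with all prime divisors in a finite set -/
theorem hasSum_Sm (h1 : f 1 = 1) (hm : ∀ I J, f (I * J) = f I * f J)
    (hs : Summable fun I => ‖f I‖) (hlt : ∀ v : HeightOneSpectrum A, ‖f v.asIdeal‖ < 1)
    (S : Finset (HeightOneSpectrum A)) :
    HasSum (fun I : Sm S => f I) (∏ v ∈ S, (1 - f v.asIdeal)⁻¹) := by
  induction S using Finset.induction_on with
  | empty =>
    rw [Finset.prod_empty, ← h1]
    rw [Sm_empty]
    exact hasSum_unique _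
  | insert v S hv ih =>
    rw [Finset.prod_insert hv]
    have hpow : ∀ (n : ℕ) (I : Ideal A), f (v.asIdeal ^ n * I) = f v.asIdeal ^ n * f I := by
      intro n I
      induction n with
      | zero => rw [pow_zero, one_mul, pow_zero, one_mul]
      | succ n ihn => rw [pow_succ', mul_assoc, hm, ihn, pow_succ', mul_assoc]
    have hgeo : HasSum (fun n : ℕ => f v.asIdeal ^ n) (1 - f v.asIdeal)⁻¹ :=
      hasSum_geometric_of_norm_lt_one (hlt v)
    have hgs : Summable fun n : ℕ => ‖f v.asIdeal ^ n‖ := by
      simp_rw [norm_pow]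
      exact summable_geometric_of_lt_one (norm_nonneg _) (hlt v)
    have hS : Summable fun I : Sm S => ‖f I‖ := hs.subtype _
    have hprod : HasSum (fun p : ℕ × Sm S => f v.asIdeal ^ p.1 * f p.2)
        ((1 - f v.asIdeal)⁻¹ * ∏ w ∈ S, (1 - f w.asIdeal)⁻¹) := by
      have h := summable_mul_of_summable_norm (f := fun n : ℕ => f v.asIdeal ^ n)
        (g := fun I : Sm S => f I) hgs hS
      exact HasSum.mul (f := fun n : ℕ => f v.asIdeal ^ n) (g := fun I : Sm S => f I) hgeo ih h
    -- the bijection
    have hmem : ∀ p : ℕ × Sm S, v.asIdeal ^ p.1 * (p.2 : Ideal A) ∈ Sm (insert v S) := by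
      rintro ⟨n, I, hI0, hI⟩
      refine ⟨mul_ne_zero (pow_ne_zero _ v.ne_bot) hI0, fun w hw => ?_⟩
      rw [Finset.mem_insert]
      have hw' := (Ideal.IsPrime.mul_le w.isPrime).1 hw
      rcases hw' with h | h
      · left
        have h2 : v.asIdeal ≤ w.asIdeal := by
          rcases Nat.eq_zero_or_pos n with rfl | hn
          · rw [pow_zero, Ideal.one_eq_top, top_le_iff] at h
            exact absurd h w.isPrime.ne_top
          · exact (w.isPrime.pow_le_iff hn.ne').1 h
        have h3 := (v.isMaximal.eq_of_le w.isPrime.ne_top h2)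
        exact HeightOneSpectrum.ext h3.symm
      · right
        exact hI w h
    let e : ℕ × Sm S ≃ Sm (insert v S) := Equiv.ofBijective (fun p => ⟨_, hmem p⟩) (by
      constructor
      · rintro ⟨n, I, hI0, hI⟩ ⟨m, J, hJ0, hJ⟩ h
        have h' : v.asIdeal ^ n * I = v.asIdeal ^ m * J := congrArg Subtype.val h
        have hvI : ¬ v.asIdeal ∣ I := fun hd => hv (hI v (Ideal.dvd_iff_le.1 hd))
        have hvJ : ¬ v.asIdeal ∣ J := fun hd => hv (hJ v (Ideal.dvd_iff_le.1 hd))
        have hp := v.prime
        have hnm : n = m := by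
          have key : ∀ (a b : ℕ) (X Y : Ideal A), ¬ v.asIdeal ∣ Y →
              v.asIdeal ^ a * X = v.asIdeal ^ b * Y → a ≤ b := by
            intro a b X Y hY hXY
            have hd : v.asIdeal ^ a ∣ v.asIdeal ^ b * Y := ⟨X, hXY.symm⟩
            by_contra hab
            push Not at hab
            obtain ⟨c, rfl⟩ := Nat.exists_eq_add_of_lt hab
            rw [add_assoc, pow_add] at hd
            have hd2 := (mul_dvd_mul_iff_left (pow_ne_zero b hp.ne_zero)).1 hd
            exact hY ((dvd_pow_self _ (Nat.succ_ne_zero c)).trans hd2)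
          exact le_antisymm (key n m I J hvJ h') (key m n J I hvI h'.symm)
        subst hnm
        have hIJ : I = J := mul_left_cancel₀ (pow_ne_zero n hp.ne_zero) h'
        subst hIJ
        rfl
      · rintro ⟨J, hJ0, hJ⟩
        have hp := v.prime
        have hfin : FiniteMultiplicity v.asIdeal J :=
          FiniteMultiplicity.of_not_isUnit hp.not_isUnit hJ0
        obtain ⟨c, hc, hcv⟩ := hfin.exists_eq_pow_mul_and_not_dvd
        refine ⟨⟨multiplicity v.asIdeal J, c, ?_, ?_⟩, ?_⟩
        · rintro rfl
          exact hJ0 (by rw [hc]; exact mul_zero _)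
        · intro w hw
          have h2 : J ≤ w.asIdeal := by
            rw [hc]
            exact Ideal.mul_le_right.trans hw
          rcases Finset.mem_insert.1 (hJ w h2) with rfl | h3
          · exact absurd (Ideal.dvd_iff_le.2 hw) hcv
          · exact h3
        · exact Subtype.ext hc.symm)
    rw [← e.hasSum_iff]
    refine hprod.congr_fun fun p => ?_
    rw [Function.comp_apply]
    exact (hpow p.1 p.2)

/-- **Euler product** over the primes of a Dedekind domain -/
theorem hasProd_euler (h0 : f ⊥ = 0) (h1 : f 1 = 1) (hm : ∀ I J, f (I * J) = f I * f J)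
    (hs : Summable fun I => ‖f I‖) :
    HasProd (fun v : HeightOneSpectrum A => (1 - f v.asIdeal)⁻¹) (∑' I, f I) := by
  classical
  have hlt : ∀ v : HeightOneSpectrum A, ‖f v.asIdeal‖ < 1 := by
    intro v
    have hinj : Function.Injective fun n : ℕ => v.asIdeal ^ n :=
      pow_injective_of_not_isUnit v.prime.not_isUnit v.prime.ne_zero
    have h2 : Summable fun n : ℕ => ‖f v.asIdeal‖ ^ n := by
      refine (hs.comp_injective hinj).congr fun n => ?_
      rw [Function.comp_apply]
      have : f (v.asIdeal ^ n) = f v.asIdeal ^ n := by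
        induction n with
        | zero => rw [pow_zero, h1, pow_zero]
        | succ n ihn => rw [pow_succ, hm, ihn, pow_succ]
      rw [this, norm_pow]
    rw [summable_geometric_iff_norm_lt_one] at h2
    simpa using h2
  have key : Tendsto (fun S : Finset (HeightOneSpectrum A) =>
      ∑' I : Ideal A, (Sm S).indicator f I) atTop (𝓝 (∑' I, f I)) := by
    refine tendsto_tsum_of_dominated_convergence (bound := fun I => ‖f I‖) hs ?_ ?_
    · intro I
      by_cases hI : I = ⊥
      · subst hI
        rw [h0]
        refine tendsto_const_nhds.congr fun S => ?_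
        rw [Set.indicator_apply]
        split_ifs
        · exact h0.symm
        · rfl
      · obtain ⟨S, hS⟩ := exists_Sm hI
        refine tendsto_const_nhds.congr' ?_
        filter_upwards [eventually_ge_atTop S] with T hT
        rw [Set.indicator_of_mem (Sm_mono hT hS)]
    · refine Eventually.of_forall fun S I => ?_
      exact norm_indicator_le_norm_self _ _
  rw [HasProd]
  refine key.congr fun S => ?_
  rw [← tsum_subtype]
  exact (hasSum_Sm f h1 hm hs hlt S).tsum_eq

end Pool.Agent.helper2.Tow
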